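import Pool.Agent.Helper60.GUM.St

/-!
Project GUM (MP_0bd1d1_al): module HYP, hyperbolic pairs and dimensions.
-/

set_option autoImplicit false

namespace Pool.Agent.Helper24.GUM

open Module _root_.GUM

variable {k F X : Type*} [Field k] [Field F] [Algebra k F] [AddCommGroup X] [Module F X]
  {σ : F ≃ₐ[k] F} {B : HForm σ X}

private lemma exists_tr (hQ : UN.QE σ) (a : F) (ha : σ a = a) : ∃ x, x + σ x = a := by
  obtain ⟨t, ht⟩ : ∃ t, t + σ t ≠ 0 := by
    obtain ⟨x, hx⟩ := hQ.ne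
    by_cases h : x + σ x = 0
    · refine ⟨1, ?_⟩
      rw [map_one]
      intro h1
      apply hx
      have h2 : σ x = -x := by
        rw [eq_neg_iff_add_eq_zero, add_comm]
        exact h
      have h3 : x + x = 0 := by
        have : x * (1 + 1) = 0 := by rw [h1, mul_zero]
        rw [mul_add, mul_one] at this
        exact this
      rw [h2, eq_comm, eq_neg_iff_add_eq_zero]
      exact h3
    · exact ⟨x, h⟩
  refine ⟨a * t / (t + σ t), ?_⟩
  have hs : σ (t + σ t) = t + σ t := by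
    rw [map_add, hQ.inv, add_comm]
  rw [map_div₀, map_mul, ha, hs, ← add_div, ← mul_add, mul_div_assoc, div_self ht, mul_one]

private lemma exists_adm (hQ : UN.QE σ) (v : X) : ∃ c, Adm B v c := by
  have h : σ (-B.f v v) = -B.f v v := by
    rw [map_neg, ← B.sym v v]
  obtain ⟨x, hx⟩ := exists_tr hQ _ h
  exact ⟨x, by unfold Adm; rw [hx, neg_add_cancel]⟩

private lemma decomp {Y : Submodule F X} {p p' : X} (h : HP B Y p p') (x : X) (hx : x ∈ Y) :
    x - B.f x p' • p - B.f x p • p' ∈ pp B Y p p' := by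
  have h3 : B.f p' p = 1 := B.swap1 h.b
  rw [mem_pp]
  refine ⟨Y.sub_mem (Y.sub_mem hx (Y.smul_mem _ h.m1)) (Y.smul_mem _ h.m2), ?_, ?_⟩
  · rw [B.sub_l, B.sub_l, B.smul, B.smul, h.q1, h3]
    ring
  · rw [B.sub_l, B.sub_l, B.smul, B.smul, h.q2, h.b]
    ring

private lemma pp_le {Y : Submodule F X} {p p' : X} : pp B Y p p' ≤ Y := inf_le_left

private lemma pp_finrank [FiniteDimensional F X] {Y : Submodule F X} {p p' : X}
    (h : HP B Y p p') : finrank F (pp B Y p p') + 2 = finrank F Y := by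
  have h3 : B.f p' p = 1 := B.swap1 h.b
  let L : Y →ₗ[F] F × F := ((B.l p).prod (B.l p')).domRestrict Y
  have hL : ∀ y : Y, L y = (B.f y p, B.f y p') := fun y => rfl
  have hsurj : Function.Surjective L := by
    rintro ⟨a, b⟩
    refine ⟨⟨a • p' + b • p, Y.add_mem (Y.smul_mem _ h.m2) (Y.smul_mem _ h.m1)⟩, ?_⟩
    rw [hL]
    simp only [B.add, B.smul, h3, h.b, h.q1, h.q2]
    simp
  have hker : LinearMap.ker L = (pp B Y p p').comap Y.subtype := by
    ext y
    rw [LinearMap.mem_ker, hL, Submodule.mem_comap, mem_pp]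
    simp
  have hk : finrank F (LinearMap.ker L) = finrank F (pp B Y p p') := by
    rw [hker]
    exact LinearEquiv.finrank_eq (Submodule.comapSubtypeEquivOfLe pp_le)
  have := LinearMap.finrank_range_add_finrank_ker L
  rw [LinearMap.range_eq_top.2 hsurj, finrank_top, finrank_prod, finrank_self, hk] at this
  omega

private lemma ker_finrank [FiniteDimensional F X] {Z : Submodule F X} {y : X} (hy : y ∈ Z)
    (h : B.f y y ≠ 0) :
    finrank F (Z ⊓ LinearMap.ker (B.l y) : Submodule F X) + 1 = finrank F Z := by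
  let L : Z →ₗ[F] F := (B.l y).domRestrict Z
  have hL : ∀ x : Z, L x = B.f x y := fun x => rfl
  have hsurj : Function.Surjective L := by
    intro a
    refine ⟨⟨(a / B.f y y) • y, Z.smul_mem _ hy⟩, ?_⟩
    rw [hL]
    show B.f ((a / B.f y y) • y) y = a
    rw [B.smul, div_mul_cancel₀ _ h]
  have hker : LinearMap.ker L = (Z ⊓ LinearMap.ker (B.l y)).comap Z.subtype := by
    ext x
    rw [LinearMap.mem_ker, hL, Submodule.mem_comap, Submodule.mem_inf, LinearMap.mem_ker,
      HForm.l_apply]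
    simp
  have hk : finrank F (LinearMap.ker L) =
      finrank F (Z ⊓ LinearMap.ker (B.l y) : Submodule F X) := by
    rw [hker]
    exact LinearEquiv.finrank_eq (Submodule.comapSubtypeEquivOfLe inf_le_left)
  have := LinearMap.finrank_range_add_finrank_ker L
  rw [LinearMap.range_eq_top.2 hsurj, finrank_top, finrank_self, hk] at this
  omega

theorem hHyp [FiniteDimensional F X] (hQ : UN.QE σ) : StHyp B where
  adm := exists_adm hQ
  exHP := by
    intro Y p hY hp h0 hq
    obtain ⟨y, hy, hb⟩ := hY p hp h0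
    obtain ⟨z, hz, hbz⟩ : ∃ z ∈ Y, B.f p z = 1 :=
      ⟨σ (B.f p y)⁻¹ • y, Y.smul_mem _ hy, by
        rw [B.smul_r, hQ.inv, inv_mul_cancel₀ hb]⟩
    have hzb : B.f z p = 1 := B.swap1 hbz
    obtain ⟨c, hc⟩ := exists_adm (B := B) hQ z
    unfold Adm at hc
    refine ⟨z + c • p, hp, Y.add_mem hz (Y.smul_mem _ hp), hq, ?_, ?_⟩
    · rw [B.add, B.add_r, B.add_r, B.smul, B.smul, B.smul_r, B.smul_r, hq, hzb, hbz]
      linear_combination hc
    · rw [B.add_r, B.smul_r, hq, hbz, mul_zero, add_zero]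
  nd := by
    intro Y p p' h hY x hx h0
    obtain ⟨hxY, hxp, hxp'⟩ := mem_pp.1 hx
    obtain ⟨y, hy, hb⟩ := hY x hxY h0
    refine ⟨_, decomp h y hy, ?_⟩
    rw [B.sub_r, B.sub_r, B.smul_r, B.smul_r, hxp, hxp', mul_zero, mul_zero, sub_zero, sub_zero]
    exact hb
  fr := fun _ _ _ h => pp_finrank h
  aniso := by
    intro Z y hy h hZ
    refine ⟨?_, ker_finrank hy h⟩
    intro x hx h0
    obtain ⟨hxZ, hxy⟩ := Submodule.mem_inf.1 hx
    rw [LinearMap.mem_ker, HForm.l_apply] at hxy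
    obtain ⟨z, hz, hb⟩ := hZ x hxZ h0
    refine ⟨z - (B.f z y / B.f y y) • y, ?_, ?_⟩
    · refine Submodule.mem_inf.2 ⟨Z.sub_mem hz (Z.smul_mem _ hy), ?_⟩
      rw [LinearMap.mem_ker, HForm.l_apply, B.sub_l, B.smul, div_mul_cancel₀ _ h, sub_self]
    · rw [B.sub_r, B.smul_r, hxy, mul_zero, sub_zero]
      exact hb

end Pool.Agent.Helper24.GUM
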