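import Pool.Agent.Helper70.GUM.St1

/-!
Project GUM (MP_0bd1d1_al): module RAD, radial functions modulo `q + 1`.
-/

set_option autoImplicit false

namespace Pool.Agent.Helper24.GUM

open Pool.Agent.Helper70.GUM Module OG UN
open scoped Classical

universe u v w z

section

variable {k : Type u} {F : Type v} {R : Type w} {K : Type z} [Field k] [Fintype k] [Field F]
  [Fintype F] [Algebra k F] {σ : F ≃ₐ[k] F} [CommRing R] [Field K] [Algebra R K]
  {hσ : QE σ} {χ : AddChar F R} {r : R} {x : F}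

private lemma tr_dec {ε : F} (hε : ε + σ ε = 1) (g : Hei hσ) :
    (g.c - ε * (g.a * σ g.a)) + σ (g.c - ε * (g.a * σ g.a)) = 0 := by
  have h1 := sc_ok hσ hε g.a
  have h2 := g.h
  rw [map_sub]
  linear_combination h2 - h1

private lemma dec {ε : F} (hε : ε + σ ε = 1) (g : Hei hσ) :
    cen hσ (g.c - ε * (g.a * σ g.a)) * sc hσ ε g.a = g := by
  have h0 := tr_dec hε g
  apply Hei.ext
  · rw [Hei.mul_a, cen_a h0, sc_a hε, zero_add]
  · rw [Hei.mul_c, cen_a h0, cen_c h0, sc_c hε, map_zero, mul_zero]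
    ring

private lemma yform {ε : F} (hε : ε + σ ε = 1) {y : Hei hσ → K} (hy : y ∈ Fun R K hσ χ)
    (g : Hei hσ) : y g = χ (ε * (g.a * σ g.a) - g.c) • y (sc hσ ε g.a) := by
  have h := (mem_Fun.1 hy) (sc hσ ε g.a) _ (tr_dec hε g)
  rw [dec hε g, neg_sub] at h
  exact h

private lemma XD (S : Sums σ χ x) {j : ℕ} (h1 : 1 ≤ j) (h2 : j ≤ Nat.card k) (g : Hei hσ) :
    XR r (ep x j) (DD K hσ χ) g =
      algebraMap R K (-(r * χ (σ (ep x j) * (g.a * σ g.a) - g.c))) := by
  have hε := S.tr1 j h1 h2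
  rw [XR_apply]
  have key : ∀ a : F, DD K hσ χ (g * sc hσ (ep x j) a) = if a = -g.a then
      algebraMap R K (χ (σ (ep x j) * (g.a * σ g.a) - g.c)) else 0 := by
    intro a
    unfold DD
    rw [Hei.mul_a, sc_a hε]
    by_cases h : a = -g.a
    · rw [if_pos h, if_pos (by rw [h]; ring)]
      congr 2
      rw [Hei.mul_c, sc_c hε, sc_a hε, h, map_neg]
      linear_combination (-(g.a * σ g.a)) * hε
    · rw [if_neg h, if_neg]
      intro h'
      apply h
      linear_combination h'
  rw [Finset.sum_congr rfl (fun a _ => key a), Finset.sum_ite_eq', if_pos (Finset.mem_univ _),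
    map_neg, map_mul, Algebra.smul_def]

private lemma inner (S : Sums σ χ x) (m : k) :
    ∑ j ∈ Finset.Icc 1 (Nat.card k), χ ((σ (ep x j) - σ (ep x 1)) * algebraMap k F m) =
      if m = 0 then ((Nat.card k : ℕ) : R) else 0 := by
  have h2 : 1 ≤ Nat.card k := by
    have := S.two
    omega
  have hε := S.tr1 1 le_rfl h2
  rw [S.ep_sum (fun e => χ ((σ e - σ (ep x 1)) * algebraMap k F m)) (ep x 1) hε]
  have key : ∀ z ∈ F0 σ, χ ((σ (ep x 1 + z) - σ (ep x 1)) * algebraMap k F m) =
      χ (algebraMap k F (-m) * z) := by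
    intro z hz
    rw [mem_F0] at hz
    congr 1
    rw [map_add, map_neg]
    linear_combination (algebraMap k F m) * hz
  rw [Finset.sum_congr rfl key]
  by_cases hm : m = 0
  · rw [if_pos hm, hm, neg_zero, map_zero]
    simp only [zero_mul, AddChar.map_zero_eq_one, Finset.sum_const, S.cardF0, nsmul_eq_mul,
      mul_one]
  · rw [if_neg hm]
    exact S.s0 (-m) (neg_ne_zero.2 hm)

private lemma dbl (S : Sums σ χ x) (hr : r * (Nat.card k : R) = 1) (P : k → R) (m : k) (b : F) :
    ∑ j ∈ Finset.Icc 1 (Nat.card k),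
      (∑ m' : k, χ ((σ (ep x 1) - σ (ep x j)) * algebraMap k F m') * P m') *
        (r * χ (σ (ep x j) * algebraMap k F m - b)) =
      χ (σ (ep x 1) * algebraMap k F m - b) * P m := by
  have e1 : ∀ j ∈ Finset.Icc 1 (Nat.card k),
      (∑ m' : k, χ ((σ (ep x 1) - σ (ep x j)) * algebraMap k F m') * P m') *
        (r * χ (σ (ep x j) * algebraMap k F m - b)) =
      ∑ m' : k, (r * χ (σ (ep x 1) * algebraMap k F m - b) * P m') *
        χ ((σ (ep x j) - σ (ep x 1)) * algebraMap k F (m - m')) := by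
    intro j _
    rw [Finset.sum_mul]
    refine Finset.sum_congr rfl (fun m' _ => ?_)
    have e : χ ((σ (ep x 1) - σ (ep x j)) * algebraMap k F m') *
        χ (σ (ep x j) * algebraMap k F m - b) =
        χ (σ (ep x 1) * algebraMap k F m - b) *
          χ ((σ (ep x j) - σ (ep x 1)) * algebraMap k F (m - m')) := by
      rw [← AddChar.map_add_eq_mul, ← AddChar.map_add_eq_mul]
      congr 1
      rw [map_sub]
      ring
    linear_combination (r * P m') * e
  rw [Finset.sum_congr rfl e1, Finset.sum_comm]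
  have e2 : ∀ m' ∈ (Finset.univ : Finset k), ∑ j ∈ Finset.Icc 1 (Nat.card k),
      (r * χ (σ (ep x 1) * algebraMap k F m - b) * P m') *
        χ ((σ (ep x j) - σ (ep x 1)) * algebraMap k F (m - m')) =
      (r * χ (σ (ep x 1) * algebraMap k F m - b) * P m') *
        (if m - m' = 0 then ((Nat.card k : ℕ) : R) else 0) := by
    intro m' _
    rw [← Finset.mul_sum, inner S]
  rw [Finset.sum_congr rfl e2, Finset.sum_eq_single m]
  · rw [sub_self, if_pos rfl]
    linear_combination (χ (σ (ep x 1) * algebraMap k F m - b) * P m) * hr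
  · intro m' _ hm'
    rw [if_neg (sub_ne_zero.2 (Ne.symm hm')), mul_zero]
  · intro h
    exact absurd (Finset.mem_univ _) h

private lemma orth (hσ : QE σ) (S : Sums σ χ x) (d : ℕ → R) (l : ℕ) (hl : l < Nat.card k) :
    ∑ m : k, ∑ i ∈ Finset.range (Nat.card k),
      d i * χ ((σ (ep x (i + 1)) - σ (ep x (l + 1))) * algebraMap k F m) =
      ((Nat.card k : ℕ) : R) * d l := by
  rw [Finset.sum_comm]
  have e2 : ∀ i ∈ Finset.range (Nat.card k),
      ∑ m : k, d i * χ ((σ (ep x (i + 1)) - σ (ep x (l + 1))) * algebraMap k F m) =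
      d i * ∑ m : k, χ ((σ (ep x (i + 1)) - σ (ep x (l + 1))) * algebraMap k F m) := by
    intro i _
    rw [← Finset.mul_sum]
  rw [Finset.sum_congr rfl e2, Finset.sum_eq_single l]
  · rw [sub_self]
    simp only [zero_mul, AddChar.map_zero_eq_one, Finset.sum_const, Finset.card_univ,
      nsmul_eq_mul, mul_one, Nat.card_eq_fintype_card]
    ring
  · intro i hi hil
    rw [Finset.mem_range] at hi
    rw [S.sk, mul_zero]
    · have h1 := S.tr1 (i + 1) (by omega) (by omega)
      have h2 := S.tr1 (l + 1) (by omega) (by omega)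
      rw [map_sub, hσ.inv, hσ.inv]
      linear_combination h1 - h2
    · intro h
      apply hil
      have h3 : ep x (i + 1) = ep x (l + 1) := σ.injective (sub_eq_zero.1 h)
      have h4 := S.inj (i + 1) (l + 1) (by omega) (by omega) (by omega) (by omega) h3
      omega
  · intro h
    exact absurd (Finset.mem_range.2 hl) h

private lemma icc_range {M : Type*} [AddCommMonoid M] (f : ℕ → M) (q : ℕ) :
    ∑ j ∈ Finset.Icc 1 q, f j = ∑ i ∈ Finset.range q, f (i + 1) := by
  induction q with
  | zero => simp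
  | succ q ih => rw [Finset.sum_Icc_succ_top (by omega), ih, Finset.sum_range_succ]

private lemma chi_neg (a : F) : χ (-a) * χ a = 1 := by
  rw [← AddChar.map_add_eq_mul, neg_add_cancel, AddChar.map_zero_eq_one]

end

theorem hRAD : StRAD.{u, v, w, z} := by
  intro k F R K _ _ _ _ _ σ _ _ _ _ _ hσ χ r x C S Bs hP y hy m₁ hm₁ m₂ hm₂ h1 h2
  obtain ⟨hyF, hyV⟩ := Submodule.mem_inf.1 hy
  have hm₁V := (Submodule.mem_inf.1 hm₁).2
  have hm₂V := (Submodule.mem_inf.1 hm₂).2
  have hinj : Function.Injective (algebraMap R K) := IsFractionRing.injective R K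
  have hq1 : 1 ≤ Nat.card k := by
    have := S.two
    omega
  have e1 : ep x 1 + σ (ep x 1) = 1 := S.tr1 1 le_rfl hq1
  set ε := ep x 1 with hε
  set n : R := ((Nat.card k : ℕ) : R) + 1 with hn
  have hr : r * ((Nat.card k : ℕ) : R) = 1 := C.inv
  obtain ⟨J, hJ⟩ : ∃ J : Submodule R K, J = Submodule.span R {algebraMap R K n} := ⟨_, rfl⟩
  have hJd : ∀ t : R, n ∣ t → algebraMap R K t ∈ J := by
    rintro _ ⟨t, rfl⟩
    rw [hJ, Submodule.mem_span_singleton]
    exact ⟨t, by rw [Algebra.smul_def, ← map_mul, mul_comm]⟩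
  have hJd' : ∀ t : R, algebraMap R K t ∈ J → n ∣ t := by
    intro t ht
    rw [hJ, Submodule.mem_span_singleton] at ht
    obtain ⟨s, hs⟩ := ht
    rw [Algebra.smul_def, ← map_mul] at hs
    exact ⟨s, by rw [← hinj hs, mul_comm]⟩
  -- the radial part
  have hex : ∀ g, ∃ t, algebraMap R K t = y g := fun g => Submodule.mem_one.1 (hyV g)
  choose yR hyR using hex
  obtain ⟨ρ, hρd⟩ : ∃ ρ : F → R, ∀ a, ρ a = χ ((ε - σ ε) * (a * σ a)) * yR (sc hσ ε a) :=
    ⟨_, fun _ => rfl⟩
  have hρ : ∀ g : Hei hσ, y g =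
      algebraMap R K (χ (σ ε * (g.a * σ g.a) - g.c) * ρ g.a) := by
    intro g
    rw [yform e1 hyF g, ← hyR (sc hσ ε g.a), Algebra.smul_def, ← map_mul, hρd]
    congr 1
    have h3 : χ (ε * (g.a * σ g.a) - g.c) =
        χ (σ ε * (g.a * σ g.a) - g.c) * χ ((ε - σ ε) * (g.a * σ g.a)) := by
      rw [← AddChar.map_add_eq_mul]
      congr 1
      ring
    rw [h3, mul_assoc]
  have hρx : ∀ a, n ∣ ρ (x * a) - ρ a := by
    intro a
    have h3 := h1 (sc hσ ε a)
    obtain ⟨t, ht⟩ := Submodule.mem_one.1 (hm₁V (sc hσ ε a))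
    have hN : x * a * σ (x * a) = a * σ a := by
      rw [map_mul]
      linear_combination (a * σ a) * C.xn
    rw [hρ, hρ, rot_a C.xn, rot_c C.xn, sc_a e1, sc_c e1, hN, ← ht, Algebra.smul_def,
      ← map_sub, ← map_mul] at h3
    have h4 := hinj h3
    refine ⟨χ (-(σ ε * (a * σ a) - ε * (a * σ a))) * t, ?_⟩
    linear_combination (χ (-(σ ε * (a * σ a) - ε * (a * σ a)))) * h4 -
      (ρ (x * a) - ρ a) * chi_neg (χ := χ) (σ ε * (a * σ a) - ε * (a * σ a))
  have hρj : ∀ (j : ℕ) (a : F), n ∣ ρ (x ^ j * a) - ρ a := by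
    intro j
    induction j with
    | zero =>
      intro a
      rw [pow_zero, one_mul, sub_self]
      exact dvd_zero _
    | succ j ih =>
      intro a
      have h3 := dvd_add (hρx (x ^ j * a)) (ih a)
      have h4 : x * (x ^ j * a) = x ^ (j + 1) * a := by ring
      rw [h4, sub_add_sub_cancel] at h3
      exact h3
  choose am ham using hσ.nrm
  obtain ⟨P, hPd⟩ : ∃ P : k → R, ∀ m, P m = ρ (am m) := ⟨_, fun _ => rfl⟩
  have hPr : ∀ (a : F) (m : k), algebraMap k F m = a * σ a → n ∣ ρ a - P m := by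
    intro a m hm
    have h3 : am m * σ (am m) = a * σ a := by rw [ham, hm]
    by_cases ha : a = 0
    · have h4 : am m = 0 := by
        rw [ha, map_zero, mul_zero] at h3
        rcases mul_eq_zero.1 h3 with h | h
        · exact h
        · exact (map_eq_zero σ).1 h
      rw [hPd, h4, ha, sub_self]
      exact dvd_zero _
    · have hsa : σ a ≠ 0 := by
        intro h
        exact ha ((map_eq_zero σ).1 h)
      have h4 : am m ≠ 0 := by
        intro h
        rw [h, zero_mul] at h3
        exact (mul_ne_zero ha hsa) h3.symm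
      have h5 : σ (am m) ≠ 0 := by
        intro h
        exact h4 ((map_eq_zero σ).1 h)
      have h6 : a / am m * σ (a / am m) = 1 := by
        rw [map_div₀, div_mul_div_comm, h3, div_self (mul_ne_zero ha hsa)]
      obtain ⟨j, -, hj⟩ := C.gen _ h6
      have h7 : a = x ^ j * am m := by
        rw [← hj, div_mul_cancel₀ _ h4]
      rw [hPd]
      have h8 := hρj j (am m)
      rw [← h7] at h8
      exact h8
  -- the coefficients
  obtain ⟨c, hc0, hc⟩ : ∃ c : ℕ → R, c 0 = 0 ∧ ∀ j, j ≠ 0 →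
      c j = -∑ m' : k, χ ((σ ε - σ (ep x j)) * algebraMap k F m') * P m' :=
    ⟨fun j => if j = 0 then 0 else
      -∑ m' : k, χ ((σ ε - σ (ep x j)) * algebraMap k F m') * P m',
      if_pos rfl, fun j hj => if_neg hj⟩
  obtain ⟨T, hTd⟩ : ∃ T : ℕ → (Hei hσ → K), ∀ j, T j = (XR r ε ^ j) (DD K hσ χ) :=
    ⟨_, fun _ => rfl⟩
  have hTs : ∀ j, XR r ε (T j) = T (j + 1) := by
    intro j
    rw [hTd, hTd, pow_succ']
    rfl
  have hT : ∀ j, 1 ≤ j → j ≤ Nat.card k → ∀ g, T j g =
      algebraMap R K (-(r * χ (σ (ep x j) * (g.a * σ g.a) - g.c))) := by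
    intro j hj1 hj2 g
    rw [hTd, hP.pw _ Bs.DF j hj1 hj2]
    exact XD S hj1 hj2 g
  have hTF : ∀ j, T j ∈ Fun R K hσ χ := by
    intro j
    induction j with
    | zero => rw [hTd]; exact Bs.DF
    | succ j ih => rw [← hTs]; exact Bs.xrF ε _ ih
  have hTV : ∀ j, T j ∈ VS hσ (1 : Submodule R K) := by
    intro j
    induction j with
    | zero => rw [hTd]; exact Bs.DV
    | succ j ih => rw [← hTs]; exact Bs.xrV 1 ε _ ih
  obtain ⟨Z, hZd⟩ : ∃ Z : Hei hσ → K, Z = ∑ j ∈ Finset.range (Nat.card k + 1), c j • T j :=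
    ⟨_, rfl⟩
  have hZ0 : Z = ∑ i ∈ Finset.range (Nat.card k), c (i + 1) • T (i + 1) := by
    rw [hZd, Finset.sum_range_succ', hc0, zero_smul, add_zero]
  have hZ : ∀ (g : Hei hσ) (m : k), algebraMap k F m = g.a * σ g.a →
      Z g = algebraMap R K (χ (σ ε * (g.a * σ g.a) - g.c) * P m) := by
    intro g m hm
    rw [hZ0, ← icc_range (fun j => c j • T j) (Nat.card k), Finset.sum_apply, ← hm,
      ← dbl S hr P m g.c, map_sum]
    refine Finset.sum_congr rfl (fun j hj => ?_)
    rw [Finset.mem_Icc] at hj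
    rw [Pi.smul_apply, hT j hj.1 hj.2, hc j (by omega), Algebra.smul_def, ← map_mul, ← hm]
    congr 1
    ring
  have hyZ : y - Z ∈ VS hσ J := by
    intro g
    obtain ⟨m, hm⟩ := S.nrm g.a
    rw [Pi.sub_apply, hρ g, hZ g m hm, ← map_sub, ← mul_sub]
    exact hJd _ (Dvd.dvd.mul_left (hPr g.a m hm) _)
  -- the equation for the differences
  have hXZV : XR r ε Z - Z ∈ VS hσ J := by
    have h3 : n • m₂ ∈ VS hσ J := by
      intro g
      obtain ⟨t, ht⟩ := Submodule.mem_one.1 (hm₂V g)
      rw [Pi.smul_apply, ← ht, Algebra.smul_def, ← map_mul]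
      exact hJd _ (dvd_mul_right _ _)
    have h4 : XR r ε (y - Z) - (y - Z) ∈ VS hσ J :=
      Submodule.sub_mem _ (Bs.xrV J ε _ hyZ) hyZ
    have h5 : XR r ε Z - Z = n • m₂ - (XR r ε (y - Z) - (y - Z)) := by
      rw [← h2, map_sub]
      abel
    rw [h5]
    exact Submodule.sub_mem _ h3 h4
  have hXZ : XR r ε Z - Z = ∑ i ∈ Finset.range (Nat.card k),
      (c i - c (i + 1) - c (Nat.card k)) • T (i + 1) := by
    have h3 : XR r ε Z = ∑ i ∈ Finset.range (Nat.card k), c i • T (i + 1) +
        c (Nat.card k) • T 0 := by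
      rw [hZd, map_sum, Finset.sum_range_succ]
      congr 1
      · refine Finset.sum_congr rfl (fun i _ => ?_)
        rw [map_smul, hTs]
      · rw [map_smul, hTs, hTd, hP.one _ Bs.DF, hTd, pow_zero]
        rfl
    have h4 : ∑ i ∈ Finset.range (Nat.card k), T (i + 1) + T 0 = 0 := by
      rw [← Finset.sum_range_succ' T (Nat.card k)]
      simp only [hTd]
      exact hP.sum _ Bs.DF
    have h5 : T 0 = -∑ i ∈ Finset.range (Nat.card k), T (i + 1) :=
      (neg_eq_of_add_eq_zero_right h4).symm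
    have h6 : ∑ i ∈ Finset.range (Nat.card k),
        (c i - c (i + 1) - c (Nat.card k)) • T (i + 1) =
        ∑ i ∈ Finset.range (Nat.card k), c i • T (i + 1) -
        ∑ i ∈ Finset.range (Nat.card k), c (i + 1) • T (i + 1) -
        c (Nat.card k) • ∑ i ∈ Finset.range (Nat.card k), T (i + 1) := by
      rw [Finset.smul_sum, ← Finset.sum_sub_distrib, ← Finset.sum_sub_distrib]
      refine Finset.sum_congr rfl (fun i _ => ?_)
      rw [sub_smul, sub_smul]
    rw [h6, h3, ← hZ0, h5, smul_neg]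
    abel
  have hd : ∀ l, l < Nat.card k → n ∣ c l - c (l + 1) - c (Nat.card k) := by
    intro l hl
    have h3 : ∀ m : k, n ∣ ∑ i ∈ Finset.range (Nat.card k),
        (c i - c (i + 1) - c (Nat.card k)) *
          χ ((σ (ep x (i + 1)) - σ (ep x (l + 1))) * algebraMap k F m) := by
      intro m
      have h4 := hXZV (sc hσ ε (am m))
      rw [hXZ, Finset.sum_apply] at h4
      have h5 : ∑ i ∈ Finset.range (Nat.card k),
          ((c i - c (i + 1) - c (Nat.card k)) • T (i + 1)) (sc hσ ε (am m)) =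
          algebraMap R K (∑ i ∈ Finset.range (Nat.card k),
            (c i - c (i + 1) - c (Nat.card k)) *
              (-(r * χ (σ (ep x (i + 1)) * algebraMap k F m - ε * algebraMap k F m)))) := by
        rw [map_sum]
        refine Finset.sum_congr rfl (fun i hi => ?_)
        rw [Finset.mem_range] at hi
        rw [Pi.smul_apply, hT (i + 1) (by omega) (by omega), Algebra.smul_def, ← map_mul,
          sc_a e1, sc_c e1, ham]
      rw [h5] at h4
      have h6 := Dvd.dvd.mul_left (hJd' _ h4)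
        (-(((Nat.card k : ℕ) : R) * χ (ε * algebraMap k F m -
          σ (ep x (l + 1)) * algebraMap k F m)))
      rw [Finset.mul_sum] at h6
      convert h6 using 1
      refine Finset.sum_congr rfl (fun i _ => ?_)
      have h7 : χ ((σ (ep x (i + 1)) - σ (ep x (l + 1))) * algebraMap k F m) =
          χ (ε * algebraMap k F m - σ (ep x (l + 1)) * algebraMap k F m) *
          χ (σ (ep x (i + 1)) * algebraMap k F m - ε * algebraMap k F m) := by
        rw [← AddChar.map_add_eq_mul]
        congr 1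
        ring
      rw [h7]
      linear_combination (-(c i - c (i + 1) - c (Nat.card k)) *
        χ (ε * algebraMap k F m - σ (ep x (l + 1)) * algebraMap k F m) *
        χ (σ (ep x (i + 1)) * algebraMap k F m - ε * algebraMap k F m)) * hr
    have h8 : n ∣ ∑ m : k, ∑ i ∈ Finset.range (Nat.card k),
        (c i - c (i + 1) - c (Nat.card k)) *
          χ ((σ (ep x (i + 1)) - σ (ep x (l + 1))) * algebraMap k F m) :=
      Finset.dvd_sum (fun m _ => h3 m)
    rw [orth hσ S (fun i => c i - c (i + 1) - c (Nat.card k)) l hl] at h8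
    have h9 := Dvd.dvd.mul_left h8 r
    have h10 : r * (((Nat.card k : ℕ) : R) * (c l - c (l + 1) - c (Nat.card k))) =
        c l - c (l + 1) - c (Nat.card k) := by
      linear_combination (c l - c (l + 1) - c (Nat.card k)) * hr
    rw [h10] at h9
    exact h9
  have hcj : ∀ j, j ≤ Nat.card k → n ∣ c j + (j : R) * c (Nat.card k) := by
    intro j
    induction j with
    | zero =>
      intro _
      rw [hc0, Nat.cast_zero, zero_mul, add_zero]
      exact dvd_zero _
    | succ j ih =>
      intro hj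
      have h3 := dvd_sub (ih (by omega)) (hd j (by omega))
      convert h3 using 1
      push_cast
      ring
  -- the conclusion
  have hZZ : ZZ (Nat.card k) (XR r ε) (DD K hσ χ) =
      ∑ j ∈ Finset.range (Nat.card k + 1), (j : R) • T j := by
    unfold ZZ
    rw [LinearMap.sum_apply]
    refine Finset.sum_congr rfl (fun j _ => ?_)
    rw [LinearMap.smul_apply, hTd]
  have hwV : y - (-c (Nat.card k)) • ZZ (Nat.card k) (XR r ε) (DD K hσ χ) ∈ VS hσ J := by
    have h3 : y - (-c (Nat.card k)) • ZZ (Nat.card k) (XR r ε) (DD K hσ χ) = (y - Z) +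
        ∑ j ∈ Finset.range (Nat.card k + 1), (c j + (j : R) * c (Nat.card k)) • T j := by
      have h4 : ∑ j ∈ Finset.range (Nat.card k + 1), (c j + (j : R) * c (Nat.card k)) • T j =
          Z + c (Nat.card k) • ∑ j ∈ Finset.range (Nat.card k + 1), (j : R) • T j := by
        rw [hZd, Finset.smul_sum, ← Finset.sum_add_distrib]
        refine Finset.sum_congr rfl (fun j _ => ?_)
        rw [add_smul, smul_smul, mul_comm (c (Nat.card k))]
      rw [h4, hZZ, neg_smul]
      abel
    rw [h3]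
    refine Submodule.add_mem _ hyZ (Submodule.sum_mem _ fun j hj => ?_)
    rw [Finset.mem_range] at hj
    intro g
    obtain ⟨t, ht⟩ := Submodule.mem_one.1 (hTV j g)
    rw [Pi.smul_apply, ← ht, Algebra.smul_def, ← map_mul]
    exact hJd _ (Dvd.dvd.mul_right (hcj j (by omega)) _)
  have hwF : y - (-c (Nat.card k)) • ZZ (Nat.card k) (XR r ε) (DD K hσ χ) ∈
      Fun R K hσ χ := by
    refine Submodule.sub_mem _ hyF (Submodule.smul_mem _ _ ?_)
    rw [hZZ]
    exact Submodule.sum_mem _ fun j _ => Submodule.smul_mem _ _ (hTF j)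
  obtain ⟨W, hW⟩ : ∃ W : Hei hσ → K,
      W = y - (-c (Nat.card k)) • ZZ (Nat.card k) (XR r ε) (DD K hσ χ) := ⟨_, rfl⟩
  rw [← hW] at hwV hwF
  have hn0 : algebraMap R K n ≠ 0 := by
    rw [hn, map_add, map_natCast, map_one]
    exact C.nz
  have hex2 : ∀ g, ∃ t : R, W g = algebraMap R K (n * t) := by
    intro g
    have h3 := hwV g
    rw [hJ, Submodule.mem_span_singleton] at h3
    obtain ⟨s, hs⟩ := h3
    refine ⟨s, ?_⟩
    rw [← hs, Algebra.smul_def, ← map_mul, mul_comm]
  choose t ht using hex2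
  refine ⟨-c (Nat.card k), fun g => algebraMap R K (t g), Submodule.mem_inf.2 ⟨?_, ?_⟩, ?_⟩
  · intro g z hz
    have h3 := (mem_Fun.1 hwF) g z hz
    rw [ht, ht, map_mul, map_mul, Algebra.smul_def] at h3
    show algebraMap R K (t (cen hσ z * g)) = χ (-z) • algebraMap R K (t g)
    rw [Algebra.smul_def]
    apply mul_left_cancel₀ hn0
    linear_combination h3
  · intro g
    exact Submodule.mem_one.2 ⟨t g, rfl⟩
  · funext g
    have h3 := congrFun hW g
    rw [ht g, Pi.sub_apply, map_mul] at h3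
    rw [Pi.add_apply, Pi.smul_apply n, Algebra.smul_def n]
    linear_combination -h3

end Pool.Agent.Helper24.GUM
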